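import Pool.Agent.H40.RG.Main

/-!
# Edge colourings of `r`-graphs and 3-separations

An `r`-graph with a 3-separation gives two `r`-graphs, one on each side, and it is
`r`-edge-colourable if both of them are.
-/

set_option autoImplicit false

namespace Pool.Agent.Results.MP_472cf3_co.ThreeSeparation

open Finset

/-- An `r`-graph on the finite vertex set `S`: a loopless multigraph, with `m x y` edges between
`x` and `y`, which is `r`-regular and in which at least `r` edges leave every odd set of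
vertices. -/
structure RGraph {V : Type} [DecidableEq V] (r : ℕ) (S : Finset V) (m : V → V → ℕ) : Prop where
  symm : ∀ x y, m x y = m y x
  loopless : ∀ x, m x x = 0
  regular : ∀ x ∈ S, ∑ y ∈ S, m x y = r
  cut : ∀ X ⊆ S, Odd X.card → r ≤ ∑ x ∈ X, ∑ y ∈ S \ X, m x y

/-- A proper edge colouring of the multigraph on `S` with `k` colours: `C x y` is the set of the
colours of the `m x y` edges between `x` and `y`. -/
def Colourable {V : Type} (k : ℕ) (S : Finset V) (m : V → V → ℕ) : Prop :=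
  ∃ C : V → V → Finset (Fin k), (∀ x y, C x y = C y x) ∧
    (∀ x ∈ S, ∀ y ∈ S, (C x y).card = m x y) ∧
    ∀ x ∈ S, ∀ y ∈ S, ∀ z ∈ S, y ≠ z → Disjoint (C x y) (C x z)

open Pool.Agent.H40.RG

variable {V : Type} [DecidableEq V]

theorem isRG {r : ℕ} {S : Finset V} {m : V → V → ℕ} (h : RGraph r S m) : IsRG r S m := by
  refine ⟨h.symm, h.loopless, h.regular, fun X hX ho => ?_⟩
  have h1 := h.cut X hX ho
  have h2 : ∑ x ∈ X, ∑ y ∈ S, m x y = r * X.card := by
    rw [sum_congr rfl (fun x hx => h.regular x (hX hx)), sum_const, smul_eq_mul, mul_comm]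
  have h3 : ∑ x ∈ X, ∑ y ∈ S, m x y = ∑ x ∈ X, ∑ y ∈ S \ X, m x y + cc m X X := by
    unfold cc
    rw [← sum_add_distrib]
    exact sum_congr rfl fun x _ => (sum_sdiff hX).symm
  omega

theorem ofRG {r : ℕ} {S : Finset V} {m : V → V → ℕ} (h : IsRG r S m) : RGraph r S m := by
  refine ⟨h.symm, h.loop, h.reg, fun X hX ho => ?_⟩
  have h1 := h.odd X hX ho
  have h2 : ∑ x ∈ X, ∑ y ∈ S, m x y = r * X.card := by
    rw [sum_congr rfl (fun x hx => h.reg x (hX hx)), sum_const, smul_eq_mul, mul_comm]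
  have h3 : ∑ x ∈ X, ∑ y ∈ S, m x y = ∑ x ∈ X, ∑ y ∈ S \ X, m x y + cc m X X := by
    unfold cc
    rw [← sum_add_distrib]
    exact sum_congr rfl fun x _ => (sum_sdiff hX).symm
  omega

theorem col_of {r : ℕ} {S : Finset V} {m : V → V → ℕ} (h : IsRG r S m)
    (hc : Colourable r S m) : Col r S m := by
  classical
  obtain ⟨C, h1, h2, h3⟩ := hc
  have hex : ∀ x ∈ S, ∀ i : Fin r, ∃ y ∈ S, i ∈ C x y := by
    intro x hx i
    have h4 : (S.biUnion fun y => C x y).card = r := by
      rw [card_biUnion fun y hy z hz hyz => h3 x hx y hy z hz hyz]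
      exact (sum_congr rfl fun y hy => h2 x hx y hy).trans (h.reg x hx)
    have h5 : (S.biUnion fun y => C x y) = univ := by
      apply eq_univ_of_card
      rw [h4, Fintype.card_fin]
    have h6 : i ∈ S.biUnion fun y => C x y := by rw [h5]; exact mem_univ i
    obtain ⟨y, hy, hi⟩ := mem_biUnion.1 h6
    exact ⟨y, hy, hi⟩
  have huniq : ∀ x ∈ S, ∀ y ∈ S, ∀ z ∈ S, ∀ i : Fin r, i ∈ C x y → i ∈ C x z → y = z := by
    intro x hx y hy z hz i hi hi'
    by_contra hne
    exact disjoint_left.1 (h3 x hx y hy z hz hne) hi hi'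
  set p : Fin r → V → V := fun i x => if hx : x ∈ S then (hex x hx i).choose else x with hp
  have hpS : ∀ i, ∀ x ∈ S, p i x ∈ S ∧ i ∈ C x (p i x) := by
    intro i x hx
    have : p i x = (hex x hx i).choose := by rw [hp]; simp [hx]
    rw [this]
    exact (hex x hx i).choose_spec
  refine ⟨p, fun i x hx => ⟨(hpS i x hx).1, ?_⟩, fun x hx y hy => ?_⟩
  · have h4 := hpS i x hx
    have h5 := hpS i (p i x) h4.1
    exact huniq (p i x) h4.1 _ h5.1 x hx i h5.2 (by rw [h1]; exact h4.2)
  · rw [← h2 x hx y hy]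
    congr 1
    ext i
    rw [mem_filter]
    constructor
    · rintro ⟨-, h4⟩
      rw [← h4]
      exact (hpS i x hx).2
    · intro h4
      exact ⟨mem_univ i, huniq x hx _ (hpS i x hx).1 y hy i (hpS i x hx).2 h4⟩

theorem of_col {r : ℕ} {S : Finset V} {m : V → V → ℕ} (hc : Col r S m) : Colourable r S m := by
  classical
  obtain ⟨p, hp, hm⟩ := hc
  refine ⟨fun x y => if x ∈ S ∧ y ∈ S then univ.filter fun i => p i x = y else ∅,
    ?_, ?_, ?_⟩
  · intro x y
    beta_reduce
    by_cases h : x ∈ S ∧ y ∈ S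
    · rw [if_pos h, if_pos h.symm]
      ext i
      simp only [mem_filter, mem_univ, true_and]
      constructor
      · intro h4; rw [← h4]; exact (hp i x h.1).2
      · intro h4; rw [← h4]; exact (hp i y h.2).2
    · rw [if_neg h, if_neg (fun h' => h h'.symm)]
  · intro x hx y hy
    beta_reduce
    rw [if_pos ⟨hx, hy⟩]
    exact hm x hx y hy
  · intro x hx y hy z hz hyz
    beta_reduce
    rw [if_pos ⟨hx, hy⟩, if_pos ⟨hx, hz⟩, disjoint_left]
    intro i hi hi'
    rw [mem_filter] at hi hi'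
    exact hyz (hi.2.symm.trans hi'.2)

/-- **Theorem.** Let `m` be an `r`-graph on `{a, b, c} ∪ A ∪ B` without edges between `A` and `B`,
with `|A|` odd and `|B|` even, and let `v ∈ A`. There are an `r`-graph `m₁` on `{a, b, c} ∪ A`,
which differs from `m` only in the numbers of edges between `a`, `b` and `c`, and an `r`-graph `m₂`
on `{v, a, b, c} ∪ B`, which differs from `m` only at `v` and by some added edges between `b` and
`c`, with `v` joined only to `a`, `b`, `c`, such that `m` is `r`-edge-colourable if `m₁` and `m₂`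
are. -/
theorem result : ∀ (V : Type) [DecidableEq V] (r : ℕ) (m : V → V → ℕ) (A B : Finset V)
    (a b c v : V), RGraph r ({a, b, c} ∪ A ∪ B) m → a ≠ b → a ≠ c → b ≠ c →
    Disjoint {a, b, c} A → Disjoint {a, b, c} B → Disjoint A B →
    (∀ x ∈ A, ∀ y ∈ B, m x y = 0) → Odd A.card → Even B.card → v ∈ A →
    ∃ m₁ m₂ : V → V → ℕ, RGraph r ({a, b, c} ∪ A) m₁ ∧ RGraph r ({v, a, b, c} ∪ B) m₂ ∧
      (∀ x ∈ A, ∀ y, m₁ x y = m x y) ∧
      (∀ x y, x ≠ v → y ≠ v → (x ∈ B ∨ y ∈ B ∨ x = a ∨ y = a) → m₂ x y = m x y) ∧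
      m b c ≤ m₂ b c ∧ (∀ x, x ≠ a → x ≠ b → x ≠ c → m₂ v x = 0) ∧
      (Colourable r ({a, b, c} ∪ A) m₁ → Colourable r ({v, a, b, c} ∪ B) m₂ →
        Colourable r ({a, b, c} ∪ A ∪ B) m) := by
  intro V _ r m A B a b c v rg ab ac bc hA' hB' disj no hA hB hv
  have aA : a ∉ A := disjoint_left.1 hA' (by simp)
  have bA : b ∉ A := disjoint_left.1 hA' (by simp)
  have cA : c ∉ A := disjoint_left.1 hA' (by simp)
  have aB : a ∉ B := disjoint_left.1 hB' (by simp)
  have bB : b ∉ B := disjoint_left.1 hB' (by simp)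
  have cB : c ∉ B := disjoint_left.1 hB' (by simp)
  have e0 : ({a, b, c} ∪ A ∪ B : Finset V) = insert a (insert b (insert c (A ∪ B))) := by
    ext x; simp only [mem_union, mem_insert, mem_singleton]; tauto
  have e1 : ({a, b, c} ∪ A : Finset V) = insert a (insert b (insert c A)) := by
    ext x; simp only [mem_union, mem_insert, mem_singleton]; tauto
  have e2 : ({v, a, b, c} ∪ B : Finset V) = insert v (insert a (insert b (insert c B))) := by
    ext x; simp only [mem_union, mem_insert, mem_singleton]; tauto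
  rw [e0] at rg ⊢
  rw [e1, e2]
  obtain ⟨α, β, γ, τ, h⟩ := exists_sep (isRG rg) ab ac bc aA bA cA aB bB cB disj no hA
  refine ⟨m1 m a b c α β γ, m2 m a b c v α β γ τ, ofRG h.rg1, ofRG (h.rg2 hB hv), ?_, ?_, ?_, ?_,
    fun h1 h2 => of_col (h.glue hv (col_of h.rg1 h1) (col_of (h.rg2 hB hv) h2))⟩
  · intro x hx y
    have xa : x ≠ a := fun h => aA (h ▸ hx)
    have xb : x ≠ b := fun h => bA (h ▸ hx)
    have xc : x ≠ c := fun h => cA (h ▸ hx)
    simp [m1, xa, xb, xc]
  · intro x y xv yv hxy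
    have hn : ¬ ((x = b ∧ y = c) ∨ (x = c ∧ y = b)) := by
      rintro (⟨rfl, rfl⟩ | ⟨rfl, rfl⟩)
      · rcases hxy with h | h | h | h
        · exact bB h
        · exact cB h
        · exact ab h.symm
        · exact ac h.symm
      · rcases hxy with h | h | h | h
        · exact cB h
        · exact bB h
        · exact ac h.symm
        · exact ab h.symm
    simp [m2, xv, yv, hn]
  · have bv : b ≠ v := fun h => bA (h ▸ hv)
    have cv : c ≠ v := fun h => cA (h ▸ hv)
    simp [m2, bv, cv]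
  · intro x xa xb xc
    simp [m2, xa, xb, xc]

end Pool.Agent.Results.MP_472cf3_co.ThreeSeparation
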