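import Pool.Agent.H40.RG.Two

/-!
# Seymour's exact conjecture for regular multigraphs with two vertices meeting all odd cycles

Every regular multigraph `G` with `w(G) ≤ Δ(G)` which becomes bipartite after the deletion of two
vertices is of the first class.
-/

set_option autoImplicit false

namespace Pool.Agent.Results.MP_472cf3_co.TwoVertices

open Finset

/-- A loopless multigraph with vertex set `V`: the number `m x y` of edges between `x` and `y`. -/
structure Multigraph (V : Type) where
  m : V → V → ℕ
  symm : ∀ x y, m x y = m y x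
  loopless : ∀ x, m x x = 0

namespace Multigraph

variable {V : Type} [Fintype V] [DecidableEq V]

/-- The degree of a vertex. -/
def deg (G : Multigraph V) (x : V) : ℕ := ∑ y, G.m x y

/-- The maximum degree `Δ(G)`. -/
def maxDeg (G : Multigraph V) : ℕ := univ.sup G.deg

/-- The number of edges with both ends in `X`. -/
def edges (G : Multigraph V) (X : Finset V) : ℕ := (∑ x ∈ X, ∑ y ∈ X, G.m x y) / 2

/-- The density parameter `w(G)`: the maximum of `⌈|E(G[X])| / ⌊|X|/2⌋⌉` over `|X| ≥ 2`. -/
noncomputable def w (G : Multigraph V) : ℕ :=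
  (univ.filter fun X : Finset V => 2 ≤ X.card).sup fun X =>
    ⌈(G.edges X : ℚ) / ((X.card / 2 : ℕ) : ℚ)⌉₊

/-- `G` has a proper edge colouring with `k` colours: `C x y` is the set of the colours of the
edges between `x` and `y`. -/
def EdgeColorable (G : Multigraph V) (k : ℕ) : Prop :=
  ∃ C : V → V → Finset (Fin k), (∀ x y, C x y = C y x) ∧ (∀ x y, (C x y).card = G.m x y) ∧
    ∀ x y z, y ≠ z → Disjoint (C x y) (C x z)

/-- The chromatic index. -/
noncomputable def chromaticIndex (G : Multigraph V) : ℕ := sInf {k | G.EdgeColorable k}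

/-- `G` is of the first class. -/
def FirstClass (G : Multigraph V) : Prop := G.chromaticIndex = max G.maxDeg G.w

/-- `G - {u, v}` is bipartite: `side` is a 2-colouring of it. -/
def BipartiteMinusTwo (G : Multigraph V) : Prop :=
  ∃ (u v : V) (side : V → Bool), ∀ x y, x ≠ u → x ≠ v → y ≠ u → y ≠ v → G.m x y ≠ 0 →
    side x ≠ side y

open Pool.Agent.H40.RG

theorem isRG_univ (G : Multigraph V) (hr : ∃ r, ∀ x, G.deg x = r) (hw : G.w ≤ G.maxDeg) :
    IsRG G.maxDeg univ G.m := by
  obtain ⟨r, hr⟩ := hr
  have hreg : ∀ x, G.deg x = G.maxDeg := by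
    intro x
    apply le_antisymm
    · exact le_sup (f := G.deg) (mem_univ x)
    · apply Finset.sup_le
      intro y _
      rw [hr x, hr y]
  refine ⟨G.symm, G.loopless, fun x _ => hreg x, ?_⟩
  intro X _ ho
  by_cases h1 : X.card = 1
  · obtain ⟨x, rfl⟩ := card_eq_one.1 h1
    have : cc G.m {x} {x} = 0 := by
      rw [cc_singleton_left, sum_singleton, G.loopless]
    rw [this, card_singleton]
    omega
  · have h2 : 2 ≤ X.card := by
      obtain ⟨k, hk⟩ := ho
      omega
    have h3 : ⌈(G.edges X : ℚ) / ((X.card / 2 : ℕ) : ℚ)⌉₊ ≤ G.maxDeg :=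
      (le_sup (f := fun X : Finset V => ⌈(G.edges X : ℚ) / ((X.card / 2 : ℕ) : ℚ)⌉₊)
        (mem_filter.2 ⟨mem_univ X, h2⟩)).trans hw
    have hpos : (0 : ℚ) < ((X.card / 2 : ℕ) : ℚ) := by
      have : 0 < X.card / 2 := by omega
      exact_mod_cast this
    have h4 := Nat.le_of_ceil_le h3
    rw [div_le_iff₀ hpos] at h4
    have h5 : G.edges X ≤ G.maxDeg * (X.card / 2) := by exact_mod_cast h4
    obtain ⟨k, hk⟩ := cc_even (X := X) G.symm G.loopless
    have h6 : G.edges X = k := by
      unfold edges
      change cc G.m X X / 2 = k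
      omega
    obtain ⟨l, hl⟩ := ho
    have h7 : X.card / 2 = l := by omega
    rw [h6, h7] at h5
    rw [hk, hl]
    have h8 : G.maxDeg * (2 * l + 1) = 2 * (G.maxDeg * l) + G.maxDeg := by ring
    omega

theorem colorable_of_col (G : Multigraph V) {r : ℕ} (h : Col r univ G.m) : G.EdgeColorable r := by
  obtain ⟨p, hp, hc⟩ := h
  refine ⟨fun x y => univ.filter fun i => p i x = y, ?_, ?_, ?_⟩
  · intro x y
    ext i
    simp only [mem_filter, mem_univ, true_and]
    constructor
    · intro h; rw [← h]; exact (hp i x (mem_univ x)).2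
    · intro h; rw [← h]; exact (hp i y (mem_univ y)).2
  · intro x y
    exact hc x (mem_univ x) y (mem_univ y)
  · intro x y z hyz
    rw [disjoint_left]
    intro i hi hi'
    rw [mem_filter] at hi hi'
    exact hyz (hi.2.symm.trans hi'.2)

omit [DecidableEq V] in
theorem maxDeg_le (G : Multigraph V) {k : ℕ} (h : G.EdgeColorable k) : G.maxDeg ≤ k := by
  obtain ⟨C, _, h2, h3⟩ := h
  apply Finset.sup_le
  intro x _
  calc G.deg x = ∑ y, (C x y).card := sum_congr rfl fun y _ => (h2 x y).symm
    _ = (univ.biUnion fun y => C x y).card := by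
      rw [card_biUnion]
      intro y _ z _ hyz
      exact h3 x y z hyz
    _ ≤ k := by
      refine (card_le_univ _).trans ?_
      simp

theorem firstClass (G : Multigraph V) (hr : ∃ r, ∀ x, G.deg x = r) (hw : G.w ≤ G.maxDeg)
    (ht : G.BipartiteMinusTwo) : G.FirstClass := by
  classical
  have rg := isRG_univ G hr hw
  have hcol : Col G.maxDeg univ G.m := by
    obtain ⟨u, v, side, hs⟩ := ht
    rcases Nat.eq_zero_or_pos G.maxDeg with h0 | h0
    · rw [h0] at rg ⊢
      exact col_zero rg
    obtain ⟨v', hv', hs'⟩ : ∃ v', u ≠ v' ∧ ∀ x y, x ≠ u → x ≠ v' → y ≠ u → y ≠ v' →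
        G.m x y ≠ 0 → side x ≠ side y := by
      by_cases huv : u = v
      · have hev := rg.even_card h0
        have h2 : 1 < (univ : Finset V).card := by
          have h3 : 0 < (univ : Finset V).card := card_pos.2 ⟨u, mem_univ u⟩
          obtain ⟨k, hk⟩ := hev
          omega
        obtain ⟨w, hw⟩ : ∃ w, w ≠ u := by
          obtain ⟨p, _, q, _, hpq⟩ := one_lt_card.1 h2
          by_cases hp : p = u
          · exact ⟨q, fun e => hpq (hp.trans e.symm)⟩
          · exact ⟨p, hp⟩
        refine ⟨w, hw.symm, ?_⟩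
        intro x y hx _ hy _ hm
        exact hs x y hx (huv ▸ hx) hy (huv ▸ hy) hm
      · exact ⟨v, huv, hs⟩
    let X : Finset V := univ.filter fun x => x ≠ u ∧ x ≠ v' ∧ side x = true
    let Y : Finset V := univ.filter fun x => x ≠ u ∧ x ≠ v' ∧ side x = false
    have hS : insert u (insert v' (X ∪ Y)) = univ := by
      ext z
      simp only [X, Y, mem_insert, mem_union, mem_filter, mem_univ, true_and, iff_true]
      by_cases h1 : z = u
      · exact Or.inl h1
      · by_cases h2 : z = v'
        · exact Or.inr (Or.inl h2)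
        · rcases side z
          · exact Or.inr (Or.inr (Or.inr ⟨h1, h2, rfl⟩))
          · exact Or.inr (Or.inr (Or.inl ⟨h1, h2, rfl⟩))
    have hd : Disjoint X Y := by
      rw [disjoint_left]
      intro z h1 h2
      rw [mem_filter] at h1 h2
      rw [h1.2.2.2] at h2
      exact absurd h2.2.2.2 (by decide)
    have hu : u ∉ X ∪ Y := by
      rw [mem_union, mem_filter, mem_filter]
      rintro (h1 | h1)
      · exact h1.2.1 rfl
      · exact h1.2.1 rfl
    have hv : v' ∉ X ∪ Y := by
      rw [mem_union, mem_filter, mem_filter]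
      rintro (h1 | h1)
      · exact h1.2.2.1 rfl
      · exact h1.2.2.1 rfl
    rw [← hS] at rg ⊢
    refine col_two hd hu hv hv' rg ?_ ?_
    · intro x hx y hy
      rw [mem_filter] at hx hy
      by_contra hm
      exact hs' x y hx.2.1 hx.2.2.1 hy.2.1 hy.2.2.1 hm (hx.2.2.2.trans hy.2.2.2.symm)
    · intro x hx y hy
      rw [mem_filter] at hx hy
      by_contra hm
      exact hs' x y hx.2.1 hx.2.2.1 hy.2.1 hy.2.2.1 hm (hx.2.2.2.trans hy.2.2.2.symm)
  have hc := colorable_of_col G hcol
  unfold FirstClass
  rw [max_eq_left hw]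
  apply le_antisymm
  · exact Nat.sInf_le hc
  · exact le_csInf ⟨_, hc⟩ fun k hk => maxDeg_le G hk

end Multigraph

/-- **Theorem.** Every regular loopless multigraph with `w(G) ≤ Δ(G)` which becomes bipartite after
the deletion of two vertices is of the first class. -/
theorem result : ∀ (V : Type) [Fintype V] [DecidableEq V] (G : Multigraph V),
    (∃ r, ∀ x, G.deg x = r) → G.w ≤ G.maxDeg → G.BipartiteMinusTwo → G.FirstClass := by
  intro V _ _ G hr hw ht
  exact G.firstClass hr hw ht

end Pool.Agent.Results.MP_472cf3_co.TwoVertices
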